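import Mathlib
import Pool.Agent.H13.Bodies2

namespace Pool.Agent.Results.MP_41a254_co.Pyramid
open Set Filter Topology H13.Bodies

abbrev R3 := EuclideanSpace ℝ (Fin 3)

def IsBody (K : Set R3) : Prop := IsCompact K ∧ Convex ℝ K ∧ (interior K).Nonempty

/-- Some hyperplane `⟪n, x⟫ = c` strictly separates `A ∪ B` from `C`. -/
def Separable (F : Finset (Set R3)) : Prop :=
  ∀ A ∈ F, ∀ B ∈ F, ∀ C ∈ F, A ≠ B → A ≠ C → B ≠ C → ∃ (n : R3) (c : ℝ), n ≠ 0 ∧
    (∀ x ∈ A ∪ B, inner ℝ n x < c) ∧ ∀ x ∈ C, c < inner ℝ n x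

/-- The hyperplane `⟪n, x⟫ = c` meets `K`, and `K` lies on one of its sides. -/
def Supports (n : R3) (c : ℝ) (K : Set R3) : Prop :=
  (∃ x ∈ K, inner ℝ n x = c) ∧ ((∀ x ∈ K, inner ℝ n x ≤ c) ∨ ∀ x ∈ K, c ≤ inner ℝ n x)

def Nondegenerate (F : Finset (Set R3)) : Prop :=
  ∀ G ⊆ F, G.card = 4 → ¬ ∃ (n : R3) (c : ℝ), n ≠ 0 ∧ ∀ K ∈ G, Supports n c K

/-- The boundary of the convex hull contains a nonempty relatively open piece of each `∂C`. -/
def ConvexPosition (F : Finset (Set R3)) : Prop :=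
  ∀ C ∈ F, ∃ U : Set R3, IsOpen U ∧ (U ∩ frontier C).Nonempty ∧
    U ∩ frontier C ⊆ frontier (convexHull ℝ (⋃ K ∈ F, K))

theorem result (k : ℕ) : ∃ N : ℕ, ∀ n ≥ N, ∃ F : Finset (Set R3), F.card = n ∧
    (∀ K ∈ F, IsBody K) ∧ Separable F ∧ Nondegenerate F ∧
    (∀ G ⊆ F, G.card = k → ConvexPosition G) ∧ ¬ ConvexPosition F := by
  classical
  refine ⟨k + 5, fun n hn => ?_⟩
  obtain ⟨m, rfl⟩ : ∃ m, n = m + 4 := ⟨n - 4, by omega⟩
  have hs := oo_surj (m := m) (by omega)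
  have e1 : ∀ᶠ ε in 𝓝[>] (0 : ℝ), ∀ a b d, a ≠ d → b ≠ d → ∃ (n : R3) (c : ℝ),
      (∀ x ∈ K (oo m) (ww m) (rr m) ε a ∪ K (oo m) (ww m) (rr m) ε b, inner ℝ n x < c) ∧
      ∀ x ∈ K (oo m) (ww m) (rr m) ε d, c < inner ℝ n x := by
    simp only [eventually_all]
    intro a b d ha hb
    obtain ⟨n, c, h1, h2⟩ := hsep a b d ha hb
    exact (sep h1 h2).mono fun ε h => ⟨n, c, h⟩
  have e2 : ∀ᶠ ε in 𝓝[>] (0 : ℝ), ∀ j : Fin 4 → Fin (m + 3) ⊕ Fin m, (oo m ∘ j).Injective →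
      ∀ (n : R3) (c : ℝ), (∀ k, |inner ℝ n (ww m (j k)) - c| ≤ ‖n‖ * ε) → n = 0 := by
    rw [eventually_all]
    intro j
    rw [eventually_all]
    exact fun hj => indep _ (four j hj)
  have e3 : ∀ᶠ ε in 𝓝[>] (0 : ℝ), ∀ S : Finset (Option (Fin (m + 3))), S.card = k → ∀ i ∈ S,
      ∃ U, IsOpen U ∧ (U ∩ frontier (K (oo m) (ww m) (rr m) ε i)).Nonempty ∧
      U ∩ frontier (K (oo m) (ww m) (rr m) ε i) ⊆
        frontier (convexHull ℝ (⋃ i ∈ (S : Set (Option (Fin (m + 3)))), K (oo m) (ww m) (rr m) ε i)) := by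
    rw [eventually_all]
    intro S
    rw [eventually_all]
    intro hS
    rw [eventually_all]
    intro i
    rw [eventually_all]
    exact expo S (by omega) i
  obtain ⟨ε, ⟨⟨e1, e2⟩, e3⟩, hε : 0 < ε⟩ := (((e1.and e2).and e3).and self_mem_nhdsWithin).exists
  set B := K (oo m) (ww m) (rr m) ε
  have bd := body (w := ww m) hε rr0 hs
  have ne : ∀ i, (B i).Nonempty := fun i => (bd i).2.2.mono interior_subset
  have inj : B.Injective := by
    intro a d e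
    by_contra h
    obtain ⟨n, c, h1, h2⟩ := e1 a a d h h
    obtain ⟨x, hx⟩ := ne a
    linarith [h1 x (.inl hx), h2 x (e ▸ hx)]
  have sub : ∀ G ⊆ Finset.univ.image B, ∃ S : Finset _, S.image B = G ∧ S.card = G.card := by
    intro G hG
    obtain ⟨S, -, rfl⟩ := Finset.subset_image_iff.1 hG
    exact ⟨S, rfl, (Finset.card_image_of_injective _ inj).symm⟩
  refine ⟨Finset.univ.image B, by simp [Finset.card_image_of_injective _ inj], ?_, ?_, ?_, ?_, ?_⟩
  · simp only [Finset.forall_mem_image]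
    exact fun i _ => bd i
  · simp only [Separable, Finset.forall_mem_image]
    intro a _ b _ d _ _ ha hb
    obtain ⟨n, c, h1, h2⟩ := e1 a b d (fun e => ha (e ▸ rfl)) (fun e => hb (e ▸ rfl))
    refine ⟨n, c, ?_, h1, h2⟩
    rintro rfl
    obtain ⟨x, hx⟩ := ne a
    obtain ⟨y, hy⟩ := ne d
    have := (h2 y hy).trans' (h1 x (.inl hx))
    simp at this
  · rintro G hG h4 ⟨n, c, n0, h⟩
    obtain ⟨S, rfl, hS⟩ := sub G hG
    let e := (Finset.equivFinOfCardEq (hS.trans h4)).symm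
    have : ∀ k, ∃ j, oo m j = e k ∧ |inner ℝ n (ww m j) - c| ≤ ‖n‖ * ε := by
      intro k
      obtain ⟨h1, h2 | h2⟩ := h _ (Finset.mem_image_of_mem B (e k).2)
      · exact touch hε rr0 rr1 hs h1 h2
      · obtain ⟨j, a, b⟩ := touch (w := ww m) (n := -n) (c := -c) hε rr0 rr1 hs
          (by simpa using h1) (by simpa using h2)
        refine ⟨j, a, ?_⟩
        rwa [inner_neg_left, neg_sub_neg, abs_sub_comm, norm_neg] at b
    choose j h1 h2 using this
    exact n0 (e2 j (fun a b h => e.injective (Subtype.ext (by rw [← h1, ← h1]; exact h))) n c h2)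
  · intro G hG hk C hC
    obtain ⟨S, rfl, hS⟩ := sub G hG
    obtain ⟨i, hi, rfl⟩ := Finset.mem_image.1 hC
    simpa using e3 S (hS.trans hk) i hi
  · intro h
    obtain ⟨U, -, ⟨x, hx⟩, h2⟩ := h (B none) (Finset.mem_image_of_mem B (Finset.mem_univ _))
    have a := inside (m := m) hε ((bd none).1.isClosed.frontier_subset hx.2)
    exact (h2 hx).2 (by simpa using a)

end Pool.Agent.Results.MP_41a254_co.Pyramid
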